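import Pool.Agent.Helper63.TH.Goals
import Pool.Agent.Helper32.TH.C4

/-!
# MP_705522_gt, thresholds, packet C5: one cell, `n = 3`, upper bound of the decrement
-/

set_option autoImplicit false

namespace Pool.Agent.Helper48.TH

open MeasureTheory Set Filter Topology
open Pool.Agent.Helper53.PT Pool.Agent.Helper63.TH
open Pool.Agent.Helper32.TH (mn_eq sumN_eq vR_nonneg xR_nonneg vR_mono vR_add div_lt' shift_le qT_le)

/-- `√(xR k) ≤ sxg k / 2^40` -/
theorem sxg_le (hSQ : GSQ) (k : ℕ) : √(xR k) ≤ vR (N.sxg k) := by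
  have h1 := (hSQ (Nat.shiftLeft (N.xgN k) 54)).1
  have h2 : N.sxg k = N.sqU (Nat.shiftLeft (N.xgN k) 54) := rfl
  rw [← h2] at h1
  have h3 : Nat.shiftLeft (N.xgN k) 54 = N.xgN k * 2 ^ 54 := Nat.shiftLeft_eq _ _
  rw [h3] at h1
  unfold vR
  rw [le_div_iff₀ (by positivity)]
  refine le_trans (le_of_eq ?_) h1
  have h4 : ((N.xgN k * 2 ^ 54 : ℕ) : ℝ) = xR k * (2 ^ 40) ^ 2 := by
    unfold xR aR
    push_cast
    ring
  rw [h4, Real.sqrt_mul (xR_nonneg k), Real.sqrt_sq (by positivity)]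

/-- the factor of a grid cell -/
theorem fac_le (hSQ : GSQ) (b2 bm k : ℕ) {x D : ℝ} (hx : x ≤ xR (k + 1))
    (h1 : D ≤ √x / 24 * vR b2) (h2 : D ≤ 0.146 * vR bm) :
    D ≤ vR (N.mn (Nat.succ (Nat.div (Nat.shiftRight (Nat.mul (N.sxg (Nat.succ k)) b2) 40) 24))
      (c146 bm)) := by
  rw [mn_eq]
  rcases min_choice (Nat.succ (Nat.div (Nat.shiftRight (Nat.mul (N.sxg (Nat.succ k)) b2) 40) 24))
      (c146 bm) with h | h
  · rw [h]
    refine h1.trans ?_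
    have e1 : √x ≤ vR (N.sxg (k + 1)) := (Real.sqrt_le_sqrt hx).trans (sxg_le hSQ _)
    have e2 : √x / 24 * vR b2 ≤ vR (N.sxg (k + 1)) / 24 * vR b2 :=
      mul_le_mul_of_nonneg_right (by linarith) (vR_nonneg _)
    refine e2.trans ?_
    have e3 : Nat.div (Nat.shiftRight (Nat.mul (N.sxg (Nat.succ k)) b2) 40) 24 =
        (N.sxg (k + 1) * b2) / (2 ^ 40 * 24) := by
      rw [← Nat.div_div_eq_div_mul]
      have : Nat.shiftRight (Nat.mul (N.sxg (Nat.succ k)) b2) 40 =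
          (N.sxg (k + 1) * b2) / 2 ^ 40 := Nat.shiftRight_eq_div_pow _ _
      rw [this]
      rfl
    have e4 := div_lt' (N.sxg (k + 1) * b2) (2 ^ 40 * 24)
    rw [← e3] at e4
    unfold vR
    rw [le_div_iff₀ (by positivity)]
    push_cast at e4 ⊢
    refine le_trans (le_of_eq ?_) e4
    ring
  · rw [h]
    refine h2.trans ?_
    have e2 := div_lt' (146 * bm) 1000
    have e3 : (c146 bm : ℝ) = ((146 * bm / 1000 : ℕ) : ℝ) + 1 := by
      have : c146 bm = 146 * bm / 1000 + 1 := rfl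
      rw [this]
      push_cast
      rfl
    rw [← e3] at e2
    unfold vR
    rw [mul_div_assoc']
    gcongr
    push_cast at e2
    linarith

theorem gC5 : GC5 := by
  intro hSQ hGRID hSUM hDIF hFI B a1 a2 θ θ' h2
  have hθ0 : 0 < θ := by linarith [h2.th0]
  have hΔ : 0 ≤ θ' - θ := by linarith [h2.h]
  have hθ1 : θ < 1 / 2 := by linarith [h2.h, h2.th1]
  obtain ⟨hI, hV⟩ := (hDIF θ' (by linarith [h2.th0, h2.h]) h2.th1 3 (by norm_num)).1 θ h2.th0 hθ1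
  have h3 : (((3 : ℕ) : ℝ)) = 3 := by norm_num
  rw [h3] at hV
  have hsq : 0 < √(3 : ℝ) := Real.sqrt_pos.mpr (by norm_num)
  have hsq2 : √(3 : ℝ) * √(3 : ℝ) = 3 := Real.mul_self_sqrt (by norm_num)
  have hΔ3 : 0 ≤ √3 / 2 * (θ' - θ) := mul_nonneg (div_nonneg hsq.le (by norm_num)) hΔ
  have hsq3 : 1 / (2 * √(3 : ℝ)) * 3 = √3 / 2 := by
    field_simp
    rw [sq, hsq2]
  -- pointwise bound
  have key : ∀ x, 0 < x → ∀ hi D : ℝ, 0 ≤ hi → |f0 θ x| ≤ hi → |f0 θ' x| ≤ hi →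
      |f0 θ' x - f0 θ x| / (x * √x) ≤ D →
      1 / (2 * √(3 : ℝ)) * ((f0 θ' x ^ 3 - f0 θ x ^ 3) / (x * √x)) ≤ √3 / 2 * (hi ^ 2 * D) := by
    intro x hx hi D h0 ha hb hD
    have hxx : 0 < x * √x := mul_pos hx (Real.sqrt_pos.mpr hx)
    set a := f0 θ x with hadef
    set b := f0 θ' x with hbdef
    have hQ0 : 0 ≤ b ^ 2 + b * a + a ^ 2 := by nlinarith [sq_nonneg (a + b), sq_nonneg a, sq_nonneg b]
    have ha2 : a ^ 2 ≤ hi ^ 2 := by
      rw [← sq_abs a]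
      exact pow_le_pow_left₀ (abs_nonneg _) ha 2
    have hb2 : b ^ 2 ≤ hi ^ 2 := by
      rw [← sq_abs b]
      exact pow_le_pow_left₀ (abs_nonneg _) hb 2
    have hQ1 : b ^ 2 + b * a + a ^ 2 ≤ 3 * hi ^ 2 := by nlinarith [sq_nonneg (a - b)]
    have e1 : (b ^ 3 - a ^ 3) / (x * √x) = (b - a) / (x * √x) * (b ^ 2 + b * a + a ^ 2) := by
      ring
    have e2 : (b - a) / (x * √x) ≤ D :=
      (div_le_div_of_nonneg_right (le_abs_self _) hxx.le).trans hD
    have hD0 : 0 ≤ D := le_trans (div_nonneg (abs_nonneg _) hxx.le) hD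
    have e3 : (b - a) / (x * √x) * (b ^ 2 + b * a + a ^ 2) ≤ D * (3 * hi ^ 2) :=
      (mul_le_mul_of_nonneg_right e2 hQ0).trans (mul_le_mul_of_nonneg_left hQ1 hD0)
    rw [e1]
    calc 1 / (2 * √(3 : ℝ)) * ((b - a) / (x * √x) * (b ^ 2 + b * a + a ^ 2)) ≤
          1 / (2 * √(3 : ℝ)) * (D * (3 * hi ^ 2)) :=
          mul_le_mul_of_nonneg_left e3 (by positivity)
      _ = (1 / (2 * √(3 : ℝ)) * 3) * (hi ^ 2 * D) := by ring
      _ = √3 / 2 * (hi ^ 2 * D) := by rw [hsq3]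
  -- the cells
  have hcell : ∀ k < 1152, ∀ x, xR k < x → x < xR (k + 1) →
      1 / (2 * √(3 : ℝ)) * ((f0 θ' x ^ 3 - f0 θ x ^ 3) / (x * √x)) ≤
      √3 / 2 * (vR (N.u0F B k) ^ 2 * ((θ' - θ) * vR (N.mn (Nat.succ (Nat.div (Nat.shiftRight
        (Nat.mul (N.sxg (Nat.succ k)) (b2U a2)) 40) 24)) (c146 (bmU a2))))) := by
    intro k hk x hx0 hx1
    have hx : 0 < x := lt_of_le_of_lt (xR_nonneg k) hx0
    have hsx : 0 < √x := Real.sqrt_pos.mpr hx
    have hxx : 0 < x * √x := mul_pos hx hsx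
    refine key x hx _ _ (vR_nonneg _) (h2.ch.b0 k hk x hx0.le hx1.le)
      (h2.ch'.b0 k hk x hx0.le hx1.le) ?_
    have hlip := aLIP hθ0 h2.h h2.th1 hx.le
    have l1 : |f0 θ' x - f0 θ x| / (x * √x) ≤ √x / 24 * ((θ' - θ) * vR (b2U a2)) := by
      rw [div_le_iff₀ hxx]
      refine hlip.1.trans ?_
      have e1 : √x / 24 * ((θ' - θ) * vR (b2U a2)) * (x * √x) =
          x ^ 2 / 24 * ((θ' - θ) * vR (b2U a2)) := by
        have e2 : √x * √x = x := Real.mul_self_sqrt hx.le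
        calc √x / 24 * ((θ' - θ) * vR (b2U a2)) * (x * √x) =
              (√x * √x) * x / 24 * ((θ' - θ) * vR (b2U a2)) := by ring
          _ = _ := by rw [e2]; ring
      rw [e1]
      exact mul_le_mul_of_nonneg_left h2.u2 (by positivity)
    have l2 : |f0 θ' x - f0 θ x| / (x * √x) ≤ 0.146 * ((θ' - θ) * vR (bmU a2)) := by
      rw [div_le_iff₀ hxx]
      refine hlip.2.1.trans ?_
      calc 0.146 * (x * √x) * (m3 θ' - m3 θ) ≤ 0.146 * (x * √x) * ((θ' - θ) * vR (bmU a2)) :=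
            mul_le_mul_of_nonneg_left h2.um (by positivity)
        _ = _ := by ring
    rcases eq_or_lt_of_le hΔ with h0 | h0
    · rw [← h0] at l2 ⊢
      simpa using l2
    · have e1 := fac_le hSQ (b2U a2) (bmU a2) k
        (D := |f0 θ' x - f0 θ x| / (x * √x) / (θ' - θ)) hx1.le
        (by
          rw [div_le_iff₀ h0]
          refine l1.trans (le_of_eq ?_)
          ring)
        (by
          rw [div_le_iff₀ h0]
          refine l2.trans (le_of_eq ?_)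
          ring)
      rw [div_le_iff₀ h0] at e1
      rw [mul_comm (θ' - θ)]
      exact e1
  -- the tail
  have htail : ∀ x, 64 < x → 1 / (2 * √(3 : ℝ)) * ((f0 θ' x ^ 3 - f0 θ x ^ 3) / (x * √x)) ≤
      (√3 / 2 * (vR B.c0 ^ 2 * (16 * (θ' - θ)))) / (x * √x) := by
    intro x hx
    have hx0 : 0 < x := by linarith
    have hxx : 0 < x * √x := mul_pos hx0 (Real.sqrt_pos.mpr hx0)
    have e1 := key x hx0 (vR B.c0) (16 * (θ' - θ) / (x * √x)) (vR_nonneg _)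
      (h2.c0 x hx.le).1 (h2.c0 x hx.le).2
      (div_le_div_of_nonneg_right (hFI θ θ' h2.th0 h2.h h2.th1 x hx0).1 hxx.le)
    refine e1.trans (le_of_eq ?_)
    ring
  have hgI : IntegrableOn (fun x => 1 / (2 * √(3 : ℝ)) *
      ((f0 θ' x ^ 3 - f0 θ x ^ 3) / (x * √x))) (Ioi 0) := hI.const_mul _
  have hmain := hSUM hGRID _ _ _ hgI hcell htail
  rw [hV, ← integral_const_mul]
  refine hmain.trans ?_
  -- the sum
  have hterm : ∀ k ∈ Finset.range 1152,
      √3 / 2 * (vR (N.u0F B k) ^ 2 * ((θ' - θ) * vR (N.mn (Nat.succ (Nat.div (Nat.shiftRight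
        (Nat.mul (N.sxg (Nat.succ k)) (b2U a2)) 40) 24)) (c146 (bmU a2))))) *
        ((2 : ℝ) ^ N.shf k / 2 ^ 26) ≤
      √3 / 2 * (θ' - θ) * vR (wT B (b2U a2) (bmU a2) k) := by
    intro k hk
    rw [Finset.mem_range] at hk
    have e1 := qT_le (B := B) (m := N.mn (Nat.succ (Nat.div (Nat.shiftRight
        (Nat.mul (N.sxg (Nat.succ k)) (b2U a2)) 40) 24)) (c146 (bmU a2)))
        (hGRID.2.2.1 k hk).2.2
    have e2 : wT B (b2U a2) (bmU a2) k = qT B (N.mn (Nat.succ (Nat.div (Nat.shiftRight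
        (Nat.mul (N.sxg (Nat.succ k)) (b2U a2)) 40) 24)) (c146 (bmU a2))) k := rfl
    rw [e2]
    refine le_trans (le_of_eq ?_) (mul_le_mul_of_nonneg_left e1
      hΔ3)
    ring
  have hsum := Finset.sum_le_sum hterm
  rw [← Finset.mul_sum] at hsum
  have hjv : ∑ k ∈ Finset.range 1152, vR (wT B (b2U a2) (bmU a2) k) =
      vR (sumN (wT B (b2U a2) (bmU a2)) 1152) := by
    rw [sumN_eq]
    unfold vR
    push_cast
    rw [Finset.sum_div]
  rw [hjv] at hsum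
  -- rounding
  have hr2 : 4 * vR B.c0 ^ 2 ≤ vR (tQ B) := by
    have e4 := shift_le (4 * (B.c0 * B.c0)) 40
    have e5 : tQ B = Nat.succ (Nat.shiftRight (4 * (B.c0 * B.c0)) 40) := rfl
    rw [← e5] at e4
    unfold vR
    rw [le_div_iff₀ (by positivity)]
    refine le_trans (le_of_eq ?_) e4
    push_cast
    ring
  have hfin : vR (w3 B a2) = vR (sumN (wT B (b2U a2) (bmU a2)) 1152) + vR (tQ B) := vR_add _ _
  rw [hfin]
  have t4 := mul_le_mul_of_nonneg_left hr2 hΔ3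
  have t5 : √3 / 2 * (vR B.c0 ^ 2 * (16 * (θ' - θ))) / 4 =
      √3 / 2 * (θ' - θ) * (4 * vR B.c0 ^ 2) := by ring
  rw [t5]
  have t6 : √3 / 2 * ((θ' - θ) * (vR (sumN (wT B (b2U a2) (bmU a2)) 1152) + vR (tQ B))) =
      √3 / 2 * (θ' - θ) * vR (sumN (wT B (b2U a2) (bmU a2)) 1152) +
      √3 / 2 * (θ' - θ) * vR (tQ B) := by ring
  rw [t6]
  linarith

end Pool.Agent.Helper48.TH
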